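import Pool.Agent.Helper67.NX2.Defs
import Pool.Agent.Helper5.NX.Basic

/-!
# Project NX2, A1a: distance to the nearest integer, averages along progressions
-/

set_option autoImplicit false

open Finset
open scoped BigOperators ComplexConjugate

namespace Pool.Agent.Helper67.NX2

open Pool.Agent.Helper57.NX

noncomputable section

section AqBasic
variable {N : ℕ} [NeZero N]

/-! ### distance to the nearest integer -/

theorem dint_nonneg (x : ℝ) : 0 ≤ dint x := abs_nonneg _

theorem dint_le_half (x : ℝ) : dint x ≤ 1 / 2 := abs_sub_round x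

theorem dint_le_abs_sub (x : ℝ) (n : ℤ) : dint x ≤ |x - n| := round_le x n

theorem dint_add_int (x : ℝ) (n : ℤ) : dint (x + n) = dint x := by
  unfold dint
  rw [round_add_intCast]
  push_cast
  congr 1
  ring

theorem dint_neg (x : ℝ) : dint (-x) = dint x := by
  have key : ∀ y : ℝ, dint (-y) ≤ dint y := by
    intro y
    refine (dint_le_abs_sub (-y) (-round y)).trans (le_of_eq ?_)
    unfold dint
    rw [← abs_neg]
    congr 1
    push_cast
    ring
  refine le_antisymm (key x) ?_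
  have := key (-x)
  rwa [neg_neg] at this

theorem dint_add_le (x y : ℝ) : dint (x + y) ≤ dint x + dint y := by
  refine (dint_le_abs_sub (x + y) (round x + round y)).trans ?_
  unfold dint
  refine le_trans (le_of_eq ?_) (abs_add_le _ _)
  congr 1
  push_cast
  ring

theorem dint_mul_le (n : ℕ) (x : ℝ) : dint (n * x) ≤ n * dint x := by
  refine (dint_le_abs_sub (n * x) (n * round x)).trans (le_of_eq ?_)
  unfold dint
  push_cast
  rw [← mul_sub, abs_mul, Nat.abs_cast]

theorem dint_of_abs {x : ℝ} (h : |x| ≤ 1 / 2) : dint x = |x| := by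
  refine le_antisymm ?_ ?_
  · have := dint_le_abs_sub x 0
    simpa using this
  · unfold dint
    by_cases h0 : round x = 0
    · rw [h0]; simp
    · have h1 : (1 : ℝ) ≤ |((round x : ℤ) : ℝ)| := by
        rw [← Int.cast_abs]
        exact_mod_cast Int.one_le_abs h0
      have h2 := abs_sub_abs_le_abs_sub ((round x : ℤ) : ℝ) x
      rw [abs_sub_comm] at h2
      linarith

/-- geometric sums -/
theorem norm_expect_e_le (θ : ℝ) (L : ℕ) (hL : 1 ≤ L) (h : 0 < dint θ) :
    ‖𝔼 t ∈ range L, e (θ * t)‖ ≤ 1 / (2 * L * dint θ) := by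
  have h0 : ∀ t : ℕ, e (θ * t) = e (θ - round θ) ^ t := by
    intro t
    induction t with
    | zero => simp [e_zero]
    | succ n ih =>
      rw [pow_succ, ← ih]
      have e1 : θ * ((n + 1 : ℕ) : ℝ) = θ * n + ((θ - round θ) + (round θ : ℤ)) := by
        push_cast; ring
      rw [e1, e_add, e_add, e_int, mul_one]
  have h1 : 4 * dint θ ≤ ‖1 - e (θ - round θ)‖ := four_mul_abs_le (θ - round θ) (dint_le_half θ)
  have hne : e (θ - round θ) ≠ 1 := by
    intro hcon
    rw [hcon, sub_self, norm_zero] at h1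
    linarith
  have h2 : 𝔼 t ∈ range L, e (θ * t) = (e (θ - round θ) ^ L - 1) / (e (θ - round θ) - 1) / L := by
    rw [expect_eq_sum_div_card, card_range, sum_congr rfl (fun t _ => h0 t), geom_sum_eq hne]
  have hL0 : (0 : ℝ) < L := by exact_mod_cast hL
  rw [h2, norm_div, norm_div, Complex.norm_natCast, norm_sub_rev (e (θ - round θ)) 1]
  have h3 : ‖e (θ - round θ) ^ L - 1‖ ≤ 2 := by
    refine (norm_sub_le _ _).trans ?_
    rw [norm_pow, norm_e, one_pow, norm_one]
    norm_num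
  rw [div_div]
  refine (div_le_div_of_nonneg_left (norm_nonneg _) (by positivity)
    (mul_le_mul_of_nonneg_right h1 hL0.le)).trans ?_
  refine (div_le_div_of_nonneg_right h3 (by positivity)).trans (le_of_eq ?_)
  field_simp
  norm_num

/-! ### averages along progressions -/

omit [NeZero N] in
theorem Aq_one (L : ℕ) (f : ZMod N → ℂ) : Aq 1 L f = A L f := by
  funext x
  unfold Aq A
  refine expect_congr rfl fun a _ => ?_
  rw [one_mul]

omit [NeZero N] in
theorem norm_Aq_le {f : ZMod N → ℂ} (hf : ∀ x, ‖f x‖ ≤ 1) (st L : ℕ) (x : ZMod N) :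
    ‖Aq st L f x‖ ≤ 1 := norm_expect_le_of5 _ _ zero_le_one fun _ _ => hf _

omit [NeZero N] in
theorem norm_Aqb_le {f : ZMod N → ℂ} (hf : ∀ x, ‖f x‖ ≤ 1) (st L : ℕ) (x : ZMod N) :
    ‖Aqb st L f x‖ ≤ 1 := norm_expect_le_of5 _ _ zero_le_one fun _ _ => hf _

omit [NeZero N] in
theorem Aq_comm (st st' L L' : ℕ) (f : ZMod N → ℂ) :
    Aq st L (Aq st' L' f) = Aq st' L' (Aq st L f) := by
  funext x
  unfold Aq
  rw [expect_comm]
  refine expect_congr rfl fun a _ => expect_congr rfl fun b _ => ?_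
  rw [add_right_comm]

omit [NeZero N] in
theorem Aq_Aqb_comm (st st' L L' : ℕ) (f : ZMod N → ℂ) :
    Aq st L (Aqb st' L' f) = Aqb st' L' (Aq st L f) := by
  funext x
  unfold Aq Aqb
  rw [expect_comm]
  refine expect_congr rfl fun a _ => expect_congr rfl fun b _ => ?_
  rw [add_sub_right_comm]

omit [NeZero N] in
theorem Aq_sub (st L : ℕ) (f g : ZMod N → ℂ) :
    Aq st L (fun x => f x - g x) = fun x => Aq st L f x - Aq st L g x := by
  funext x
  exact expect_sub_distrib _ _ _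

theorem adj_Aq (st L : ℕ) (f g : ZMod N → ℂ) :
    𝔼 x, Aq st L f x * g x = 𝔼 x, f x * Aqb st L g x := by
  unfold Aq Aqb
  simp only [expect_mul, mul_expect]
  rw [expect_comm, expect_comm (s := univ) (t := range L)]
  refine expect_congr rfl fun a _ => ?_
  rw [← expect_shift (fun x => f x * g (x - ((st * a : ℕ) : ZMod N))) ((st * a : ℕ) : ZMod N)]
  refine expect_congr rfl fun x _ => ?_
  rw [add_sub_cancel_right]

theorem nrm_Aq_le (st L : ℕ) (f : ZMod N → ℂ) : nrm (Aq st L f) ≤ nrm f := by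
  have h1 : nrm (Aq st L f) ≤ 𝔼 x : ZMod N, 𝔼 a ∈ range L, ‖f (x + ((st * a : ℕ) : ZMod N))‖ :=
    expect_le_expect fun x _ => norm_expect_le5 _ _
  rw [expect_comm] at h1
  refine h1.trans (expect_le_of5 _ _ (nrm_nonneg f) fun a _ => ?_)
  exact (expect_shift (fun x => ‖f x‖) ((st * a : ℕ) : ZMod N)).le

omit [NeZero N] in
/-- backward averages are translates of forward averages -/
theorem Aqb_eq (st L : ℕ) (hL : 1 ≤ L) (f : ZMod N → ℂ) (x : ZMod N) :
    Aqb st L f x = Aq st L f (x - ((st * (L - 1) : ℕ) : ZMod N)) := by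
  unfold Aq Aqb
  rw [expect_eq_sum_div_card, expect_eq_sum_div_card]
  congr 1
  rw [← Finset.sum_range_reflect]
  refine sum_congr rfl fun a ha => ?_
  have ha' := mem_range.1 ha
  congr 1
  have h1 : st * (L - 1) = st * (L - 1 - a) + st * a := by
    rw [← mul_add]
    congr 1
    omega
  rw [h1]
  push_cast
  ring

omit [NeZero N] in
theorem expect_range_mul5 (q L : ℕ) (hq : 1 ≤ q) (g : ℕ → ℂ) :
    𝔼 a ∈ range (q * L), g a = 𝔼 b ∈ range q, 𝔼 a ∈ range L, g (b + q * a) := by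
  have hs : ∑ a ∈ range (q * L), g a = ∑ a ∈ range L, ∑ b ∈ range q, g (b + q * a) := by
    induction L with
    | zero => simp
    | succ n ih =>
      rw [Nat.mul_succ, Finset.sum_range_add, ih, Finset.sum_range_succ]
      congr 1
      refine sum_congr rfl fun b _ => ?_
      rw [add_comm]
  rw [expect_eq_sum_div_card, hs, card_range, expect_eq_sum_div_card, card_range]
  have : ∀ b ∈ range q, 𝔼 a ∈ range L, g (b + q * a) = (∑ a ∈ range L, g (b + q * a)) / (L : ℂ) := by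
    intro b _
    rw [expect_eq_sum_div_card, card_range]
  rw [sum_congr rfl this, ← Finset.sum_div, Finset.sum_comm, Nat.cast_mul, div_div, mul_comm (q : ℂ)]

/-- an average along `st` of length `q L` is an average of averages along `st q` of length `L` -/
theorem nrm_Aq_mul (st q L : ℕ) (hq : 1 ≤ q) (f : ZMod N → ℂ) :
    nrm (Aq st (q * L) f) ≤ nrm (Aq (st * q) L f) := by
  have h0 : ∀ x, Aq st (q * L) f x =
      𝔼 b ∈ range q, Aq (st * q) L f (x + ((st * b : ℕ) : ZMod N)) := by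
    intro x
    unfold Aq
    rw [expect_range_mul5 q L hq (fun a => f (x + ((st * a : ℕ) : ZMod N)))]
    refine expect_congr rfl fun b _ => expect_congr rfl fun a _ => ?_
    congr 1
    push_cast
    ring
  have h1 : nrm (Aq st (q * L) f) ≤
      𝔼 x : ZMod N, 𝔼 b ∈ range q, ‖Aq (st * q) L f (x + ((st * b : ℕ) : ZMod N))‖ := by
    refine expect_le_expect fun x _ => ?_
    rw [h0 x]
    exact norm_expect_le5 _ _
  rw [expect_comm] at h1
  refine h1.trans (expect_le_of5 _ _ (nrm_nonneg _) fun a _ => ?_)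
  exact (expect_shift (fun x => ‖Aq (st * q) L f x‖) ((st * a : ℕ) : ZMod N)).le

omit [NeZero N] in
theorem norm_Aq_step5 {f : ZMod N → ℂ} (hf : ∀ x, ‖f x‖ ≤ 1) (st L : ℕ) (x : ZMod N) :
    ‖Aq st L f (x + (st : ZMod N)) - Aq st L f x‖ ≤ 2 / L := by
  have h0 : Aq st L f (x + (st : ZMod N)) - Aq st L f x =
      (f (x + ((st * L : ℕ) : ZMod N)) - f x) / L := by
    unfold Aq
    rw [← expect_sub_distrib, expect_eq_sum_div_card, card_range]
    congr 1
    have h := Finset.sum_range_sub (fun a : ℕ => f (x + ((st * a : ℕ) : ZMod N))) L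
    simp only [Nat.mul_zero, Nat.cast_zero, add_zero] at h
    rw [← h]
    refine sum_congr rfl fun a _ => ?_
    congr 2
    push_cast
    ring
  rw [h0, norm_div, Complex.norm_natCast]
  refine div_le_div_of_nonneg_right ?_ (Nat.cast_nonneg _)
  refine (norm_sub_le _ _).trans ?_
  have h1 := hf (x + ((st * L : ℕ) : ZMod N))
  have h2 := hf x
  linarith

omit [NeZero N] in
theorem norm_shift_st5 {g : ZMod N → ℂ} {c : ℝ} (st : ℕ)
    (hg : ∀ x, ‖g (x + (st : ZMod N)) - g x‖ ≤ c) (x : ZMod N)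
    (t : ℤ) : ‖g (x + ((st * t : ℤ) : ZMod N)) - g x‖ ≤ |(t : ℝ)| * c := by
  have key : ∀ (x : ZMod N) (t : ℕ), ‖g (x + ((st * t : ℕ) : ZMod N)) - g x‖ ≤ t * c := by
    intro x t
    induction t with
    | zero => simp
    | succ n ih =>
      have h1 := hg (x + ((st * n : ℕ) : ZMod N))
      have h2 : x + ((st * (n + 1) : ℕ) : ZMod N) = x + ((st * n : ℕ) : ZMod N) + (st : ZMod N) := by
        push_cast; ring
      rw [h2]
      have h3 : g (x + ((st * n : ℕ) : ZMod N) + (st : ZMod N)) - g x =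
          (g (x + ((st * n : ℕ) : ZMod N) + (st : ZMod N)) - g (x + ((st * n : ℕ) : ZMod N))) +
          (g (x + ((st * n : ℕ) : ZMod N)) - g x) := by ring
      rw [h3]
      refine (norm_add_le _ _).trans ?_
      push_cast at h1 ih ⊢
      linarith
  rcases Int.eq_nat_or_neg t with ⟨n, rfl | rfl⟩
  · have := key x n
    have e1 : (((st : ℤ) * (n : ℤ) : ℤ) : ZMod N) = ((st * n : ℕ) : ZMod N) := by push_cast; rfl
    rw [e1]
    simpa using this
  · have := key (x - ((st * n : ℕ) : ZMod N)) n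
    rw [sub_add_cancel, norm_sub_rev] at this
    have e1 : x + (((st : ℤ) * (-(n : ℤ)) : ℤ) : ZMod N) = x - ((st * n : ℕ) : ZMod N) := by
      push_cast; ring
    rw [e1]
    simpa using this

omit [NeZero N] in
theorem Aq_lipschitz {f : ZMod N → ℂ} (hf : ∀ x, ‖f x‖ ≤ 1) (st L : ℕ) (hL : 1 ≤ L) (x : ZMod N)
    (t : ℤ) : ‖Aq st L f (x + ((st * t : ℤ) : ZMod N)) - Aq st L f x‖ ≤ 2 * |(t : ℝ)| / L := by
  refine (norm_shift_st5 st (norm_Aq_step5 hf st L) x t).trans (le_of_eq ?_)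
  ring

omit [NeZero N] in
theorem Aqb_lipschitz {f : ZMod N → ℂ} (hf : ∀ x, ‖f x‖ ≤ 1) (st L : ℕ) (hL : 1 ≤ L) (x : ZMod N)
    (t : ℤ) : ‖Aqb st L f (x + ((st * t : ℤ) : ZMod N)) - Aqb st L f x‖ ≤ 2 * |(t : ℝ)| / L := by
  rw [Aqb_eq st L hL, Aqb_eq st L hL, add_sub_right_comm]
  exact Aq_lipschitz hf st L hL _ t

omit [NeZero N] in
/-- averages of averages -/
theorem Aq_Aq_sub5 {f : ZMod N → ℂ} (hf : ∀ x, ‖f x‖ ≤ 1) (st L L' : ℕ) (hL : 1 ≤ L) (hL' : 1 ≤ L')
    (x : ZMod N) : ‖Aq st L (Aq st L' f) x - Aq st L' f x‖ ≤ 2 * L / L' := by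
  have h1 : Aq st L (Aq st L' f) x - Aq st L' f x
      = 𝔼 a ∈ range L, (Aq st L' f (x + ((st * a : ℕ) : ZMod N)) - Aq st L' f x) := by
    rw [expect_sub_distrib, expect_const (nonempty_range_iff.2 (by omega))]
    rfl
  rw [h1]
  refine norm_expect_le_of5 _ _ (by positivity) fun a ha => ?_
  have h2 := Aq_lipschitz hf st L' hL' x (a : ℤ)
  have h3 : (a : ℝ) ≤ L := by exact_mod_cast (mem_range.1 ha).le
  have e1 : (((st : ℤ) * (a : ℤ) : ℤ) : ZMod N) = ((st * a : ℕ) : ZMod N) := by push_cast; rfl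
  rw [e1] at h2
  simp only [Int.cast_natCast, Nat.abs_cast] at h2
  refine h2.trans ?_
  exact div_le_div_of_nonneg_right (by linarith) (Nat.cast_nonneg _)

theorem nrm_Aq_mono {f : ZMod N → ℂ} (hf : ∀ x, ‖f x‖ ≤ 1) (st L L' : ℕ) (hL : 1 ≤ L)
    (hL' : 1 ≤ L') : nrm (Aq st L' f) ≤ nrm (Aq st L f) + 2 * L / L' := by
  refine (nrm_sub_le (Aq st L' f) (Aq st L (Aq st L' f))).trans ?_
  refine add_le_add ?_ ?_
  · rw [Aq_comm]
    exact nrm_Aq_le _ _ _
  · refine expect_le_of5 _ _ (by positivity) fun x _ => ?_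
    rw [norm_sub_rev]
    exact Aq_Aq_sub5 hf st L L' hL hL' x

omit [NeZero N] in
theorem Aq_small {f : ZMod N → ℂ} (hf : ∀ x, ‖f x‖ ≤ 1) (st L L' : ℕ) (hL : 1 ≤ L) (hL' : 1 ≤ L')
    (x : ZMod N) : ‖Aq st L (fun y => f y - Aq st L' f y) x‖ ≤ 2 * L' / L := by
  rw [Aq_sub, Aq_comm, norm_sub_rev]
  exact Aq_Aq_sub5 hf st L' L hL' hL x

omit [NeZero N] in
theorem Adm.aq {B X : ℝ} {f : ZMod N → ℂ} (h : Adm B X f) (st L : ℕ) : Adm B X (Aq st L f) := by
  refine ⟨norm_Aq_le h.bdd st L, ?_⟩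
  intro x l
  refine sum_expect_le5 (range L) (fun a y => f (y + ((st * a : ℕ) : ZMod N)))
    (h.tv.rhs_nonneg5 l) x l fun a _ => ?_
  refine le_trans (le_of_eq ?_) (h.tv (x + ((st * a : ℕ) : ZMod N)) l)
  refine sum_congr rfl fun j _ => ?_
  congr 3 <;> ring

omit [NeZero N] in
theorem Adm.aqb {B X : ℝ} {f : ZMod N → ℂ} (h : Adm B X f) (st L : ℕ) :
    Adm B X (Aqb st L f) := by
  refine ⟨norm_Aqb_le h.bdd st L, ?_⟩
  intro x l
  refine sum_expect_le5 (range L) (fun a y => f (y - ((st * a : ℕ) : ZMod N)))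
    (h.tv.rhs_nonneg5 l) x l fun a _ => ?_
  refine le_trans (le_of_eq ?_) (h.tv (x - ((st * a : ℕ) : ZMod N)) l)
  refine sum_congr rfl fun j _ => ?_
  congr 3 <;> ring

end AqBasic

end

end Pool.Agent.Helper67.NX2
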